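import Mathlib
import Pool.Agent.Helper46.OF.GFinal
import Pool.Agent.Helper96.OF.Main

set_option autoImplicit false

/-!
# No finite-index subgroup of `Out(F_n)`, `n ≥ 3`, or of `Aut(F_n)`, `n ≥ 2`, embeds in a
right-angled Artin group
-/

namespace Pool.Agent.Results.MP_804d81_al.AutF2Obstruction

universe u v

/-- The right-angled Artin group of a simplicial graph `Γ` with vertex set `V`: generators are the
vertices, and `a b a⁻¹ b⁻¹ = 1` for all edges `{a, b}`. -/
abbrev RAAG {V : Type u} (Γ : SimpleGraph V) : Type u :=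
  PresentedGroup {r : FreeGroup V | ∃ a b : V, Γ.Adj a b ∧
    r = FreeGroup.of a * FreeGroup.of b * (FreeGroup.of a)⁻¹ * (FreeGroup.of b)⁻¹}

/-- The group of inner automorphisms of `G`. -/
abbrev Inn (G : Type v) [Group G] : Subgroup (MulAut G) := (MulAut.conj : G →* MulAut G).range

instance (G : Type v) [Group G] : (Inn G).Normal := by
  refine ⟨?_⟩
  rintro _ ⟨g, rfl⟩ φ
  refine ⟨φ g, ?_⟩
  ext x
  simp

/-- `Out(F_n) = Aut(F_n) / Inn(F_n)` for the free group `F_n` of rank `n`. -/
abbrev OutF (n : ℕ) : Type := MulAut (FreeGroup (Fin n)) ⧸ Inn (FreeGroup (Fin n))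

/-- Some finite-index subgroup of `G` admits an injective homomorphism to the right-angled Artin
group of `Γ`. -/
def VirtuallyEmbeds (G : Type v) [Group G] {V : Type u} (Γ : SimpleGraph V) : Prop :=
  ∃ (H : Subgroup G) (f : H →* RAAG Γ), H.FiniteIndex ∧ Function.Injective f

/-! ## Reduction to finite graphs -/

section finite

variable {V : Type u} (Γ : SimpleGraph V)

private def gen (v : V) : RAAG Γ := PresentedGroup.of v

private theorem gen_comm {a b : V} (h : Γ.Adj a b) : gen Γ a * gen Γ b = gen Γ b * gen Γ a := by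
  have h1 : (PresentedGroup.mk {r : FreeGroup V | ∃ a b : V, Γ.Adj a b ∧
      r = FreeGroup.of a * FreeGroup.of b * (FreeGroup.of a)⁻¹ * (FreeGroup.of b)⁻¹})
      (FreeGroup.of a * FreeGroup.of b * (FreeGroup.of a)⁻¹ * (FreeGroup.of b)⁻¹) = 1 :=
    PresentedGroup.one_of_mem ⟨a, b, h, rfl⟩
  rw [map_mul, map_mul, map_mul, map_inv, map_inv] at h1
  have h2 : gen Γ a * gen Γ b * (gen Γ a)⁻¹ * (gen Γ b)⁻¹ = 1 := h1
  rwa [mul_inv_eq_one, mul_inv_eq_iff_eq_mul] at h2

private noncomputable def lft {G : Type v} [Group G] (F : V → G)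
    (hF : ∀ a b, Γ.Adj a b → F a * F b = F b * F a) : RAAG Γ →* G :=
  PresentedGroup.toGroup (f := F) (by
    rintro r ⟨a, b, hab, rfl⟩
    simp only [map_mul, map_inv, FreeGroup.lift_apply_of]
    rw [hF a b hab]
    group)

private theorem lft_gen {G : Type v} [Group G] (F : V → G)
    (hF : ∀ a b, Γ.Adj a b → F a * F b = F b * F a) (w : V) : lft Γ F hF (gen Γ w) = F w :=
  PresentedGroup.toGroup.of _

/-- subgroup generated by the vertices of `W` -/
private def part (W : Set V) : Subgroup (RAAG Γ) := Subgroup.closure (gen Γ '' W)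

private theorem part_mono {W W' : Set V} (h : W ⊆ W') : part Γ W ≤ part Γ W' :=
  Subgroup.closure_mono (Set.image_mono h)

private theorem mem_part (x : RAAG Γ) : ∃ W : Set V, W.Finite ∧ x ∈ part Γ W := by
  have h : ∀ y : RAAG Γ, y ∈ Subgroup.closure (Set.range (gen Γ)) := by
    intro y
    refine PresentedGroup.generated_by _ _ (fun w => ?_) y
    exact Subgroup.subset_closure ⟨w, rfl⟩
  refine Subgroup.closure_induction (p := fun y _ => ∃ W : Set V, W.Finite ∧ y ∈ part Γ W)
    ?_ ?_ ?_ ?_ (h x)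
  · rintro _ ⟨w, rfl⟩
    exact ⟨{w}, Set.finite_singleton w, Subgroup.subset_closure ⟨w, rfl, rfl⟩⟩
  · exact ⟨∅, Set.finite_empty, one_mem _⟩
  · rintro a b _ _ ⟨W, hW, ha⟩ ⟨W', hW', hb⟩
    exact ⟨W ∪ W', hW.union hW', mul_mem (part_mono Γ Set.subset_union_left ha)
      (part_mono Γ Set.subset_union_right hb)⟩
  · rintro a _ ⟨W, hW, ha⟩
    exact ⟨W, hW, inv_mem ha⟩

/-- a homomorphism injective on a finitely generated group may be assumed to have values in the
right-angled Artin group of a finite graph -/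
private theorem to_finite {K : Type v} [Group K] [Group.FG K] (f : K →* RAAG Γ)
    (hf : Function.Injective f) :
    ∃ (m : ℕ) (Γ' : SimpleGraph (Fin m)) (f' : K →* RAAG Γ'), Function.Injective f' := by
  classical
  obtain ⟨S, hS⟩ := (Group.fg_iff.1 ‹Group.FG K›)
  obtain ⟨hS1, hS2⟩ := hS
  choose W hW hfW using fun s => mem_part Γ (f s)
  have hU : (⋃ s ∈ S, W s).Finite := hS2.biUnion (fun s _ => hW s)
  set U : Set V := ⋃ s ∈ S, W s with hUdef
  have hfU : ∀ k : K, f k ∈ part Γ U := by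
    intro k
    have hk : k ∈ Subgroup.closure S := by rw [hS1]; trivial
    have hle : Subgroup.closure S ≤ (part Γ U).comap f := by
      rw [Subgroup.closure_le]
      intro s hs
      refine part_mono Γ ?_ (hfW s)
      exact Set.subset_biUnion_of_mem (u := fun s => W s) hs
    exact hle hk
  have : Finite U := hU.to_subtype
  obtain ⟨m, ⟨e⟩⟩ := Finite.exists_equiv_fin U
  let Γ' : SimpleGraph (Fin m) := Γ.comap (fun i => ((e.symm i : U) : V))
  let F : V → RAAG Γ' := fun w => if h : w ∈ U then gen Γ' (e ⟨w, h⟩) else 1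
  have hF : ∀ a b, Γ.Adj a b → F a * F b = F b * F a := by
    intro a b hab
    by_cases ha : a ∈ U
    · by_cases hb : b ∈ U
      · simp only [F, dif_pos ha, dif_pos hb]
        refine gen_comm Γ' ?_
        simpa [Γ'] using hab
      · simp only [F, dif_neg hb, mul_one, one_mul]
    · simp only [F, dif_neg ha, mul_one, one_mul]
  let r : RAAG Γ →* RAAG Γ' := lft Γ F hF
  let i : RAAG Γ' →* RAAG Γ := lft Γ' (fun j => gen Γ ((e.symm j : U) : V)) (by
    intro a b hab
    exact gen_comm Γ hab)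
  have hir : ∀ x ∈ part Γ U, i (r x) = x := by
    intro x hx
    have hle : part Γ U ≤ (i.comp r).eqLocus (MonoidHom.id _) := by
      refine (Subgroup.closure_le _).2 ?_
      rintro _ ⟨w, hw, rfl⟩
      change i (r (gen Γ w)) = gen Γ w
      have h1 : r (gen Γ w) = gen Γ' (e ⟨w, hw⟩) := by
        refine (lft_gen Γ F hF w).trans ?_
        simp only [F, dif_pos hw]
      rw [h1]
      refine (lft_gen Γ' _ _ _).trans ?_
      simp
    exact hle hx
  refine ⟨m, Γ', r.comp f, ?_⟩
  intro a b hab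
  apply hf
  have h1 : i (r (f a)) = i (r (f b)) := congrArg i hab
  exact (hir _ (hfU a)).symm.trans (h1.trans (hir _ (hfU b)))

end finite

/-! ## Groups containing `Aut(F_2)` -/

private theorem fg_G0 : Group.FG Pool.Agent.Helper96.OF.G0 := by
  rw [Group.fg_iff_subgroup_fg]
  refine Subgroup.FG.sup ?_ ?_
  · exact (Subgroup.fg_iff _).2 ⟨{Pool.Agent.Helper96.OF.t1, Pool.Agent.Helper96.OF.t2}, rfl,
      (Set.finite_singleton _).insert _⟩
  · rw [← Group.fg_iff_subgroup_fg]
    exact Group.fg_range _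

private theorem main {V : Type u} (Γ : SimpleGraph V) (G : Type v) [Group G]
    (j : MulAut (FreeGroup (Fin 2)) →* G) (hj : Function.Injective j) : ¬ VirtuallyEmbeds G Γ := by
  rintro ⟨H, f, hH, hf⟩
  set H' : Subgroup (MulAut (FreeGroup (Fin 2))) := H.comap j ⊓ Pool.Agent.Helper96.OF.G0 with hH'
  have hrel : H'.relIndex Pool.Agent.Helper96.OF.G0 ≠ 0 := by
    rw [hH', Subgroup.inf_relIndex_right]
    intro h0
    have h1 := Subgroup.index_eq_zero_of_relIndex_eq_zero h0
    rw [Subgroup.index_comap] at h1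
    exact hH.index_ne_zero (Subgroup.index_eq_zero_of_relIndex_eq_zero h1)
  have hle : H' ≤ Pool.Agent.Helper96.OF.G0 := inf_le_right
  have hfg0 : Group.FG Pool.Agent.Helper96.OF.G0 := fg_G0
  have hfi : (H'.subgroupOf Pool.Agent.Helper96.OF.G0).FiniteIndex := ⟨hrel⟩
  have hfg1 : Group.FG (H'.subgroupOf Pool.Agent.Helper96.OF.G0) :=
    Subgroup.fg_of_index_ne_zero _
  have hfg2 : Group.FG H' :=
    Group.fg_of_surjective (f := (Subgroup.subgroupOfEquivOfLe hle).toMonoidHom)
      (Subgroup.subgroupOfEquivOfLe hle).surjective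
  let f' : H' →* RAAG Γ := f.comp (MonoidHom.codRestrict (j.comp H'.subtype) H (fun x => x.2.1))
  have hf' : Function.Injective f' := by
    intro a b hab
    have h1 := hf hab
    have h2 : j a = j b := congrArg (fun z : H => (z : G)) h1
    exact Subtype.ext (hj h2)
  obtain ⟨m, Γ', f'', hf''⟩ := to_finite Γ f' hf'
  exact Pool.Agent.Helper46.OF.no_emb Pool.Agent.Helper96.OF.theoremM_holds
    ⟨Fin m, inferInstance, Γ', H', f'', hle, hrel, hf''⟩

/-! ## `Aut(F_2)` in `Aut(F_n)` and `Out(F_n)` -/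

section embed

variable {n : ℕ} (h : 2 ≤ n)

/-- inclusion of the first two letters -/
private def inc : FreeGroup (Fin 2) →* FreeGroup (Fin n) := FreeGroup.map (Fin.castLE h)

/-- extension of an endomorphism by the identity on the other letters -/
private def Jh (φ : FreeGroup (Fin 2) →* FreeGroup (Fin 2)) :
    FreeGroup (Fin n) →* FreeGroup (Fin n) :=
  FreeGroup.lift (fun x => if hx : (x : ℕ) < 2 then inc h (φ (FreeGroup.of ⟨x, hx⟩))
    else FreeGroup.of x)

/-- the retraction with value `g` at the other letters -/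
private def ret (n : ℕ) (g : FreeGroup (Fin 2)) : FreeGroup (Fin n) →* FreeGroup (Fin 2) :=
  FreeGroup.lift (fun x => if hx : (x : ℕ) < 2 then FreeGroup.of ⟨x, hx⟩ else g)

private theorem inc_of (k : Fin 2) : inc h (FreeGroup.of k) = FreeGroup.of (Fin.castLE h k) := by
  simp [inc]

private theorem Jh_inc (φ : FreeGroup (Fin 2) →* FreeGroup (Fin 2)) (x : FreeGroup (Fin 2)) :
    Jh h φ (inc h x) = inc h (φ x) := by
  have : (Jh h φ).comp (inc h) = (inc h).comp φ := by
    apply FreeGroup.ext_hom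
    intro k
    change Jh h φ (inc h (FreeGroup.of k)) = inc h (φ (FreeGroup.of k))
    rw [inc_of]
    have hk : ((Fin.castLE h k : Fin n) : ℕ) < 2 := k.2
    simp only [Jh, FreeGroup.lift_apply_of, dif_pos hk]
    rfl
  exact DFunLike.congr_fun this x

private theorem Jh_of (φ : FreeGroup (Fin 2) →* FreeGroup (Fin 2)) {x : Fin n}
    (hx : ¬ (x : ℕ) < 2) : Jh h φ (FreeGroup.of x) = FreeGroup.of x := by
  simp only [Jh, FreeGroup.lift_apply_of, dif_neg hx]

private theorem Jh_of' (φ : FreeGroup (Fin 2) →* FreeGroup (Fin 2)) {x : Fin n}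
    (hx : (x : ℕ) < 2) : Jh h φ (FreeGroup.of x) = inc h (φ (FreeGroup.of ⟨x, hx⟩)) := by
  simp only [Jh, FreeGroup.lift_apply_of, dif_pos hx]

private theorem ret_inc (g x : FreeGroup (Fin 2)) : ret n g (inc h x) = x := by
  have : (ret n g).comp (inc h) = MonoidHom.id _ := by
    apply FreeGroup.ext_hom
    intro k
    change ret n g (inc h (FreeGroup.of k)) = FreeGroup.of k
    rw [inc_of]
    have hk : ((Fin.castLE h k : Fin n) : ℕ) < 2 := k.2
    simp only [ret, FreeGroup.lift_apply_of, dif_pos hk]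
    rfl
  exact DFunLike.congr_fun this x

private theorem ret_of (g : FreeGroup (Fin 2)) {x : Fin n} (hx : ¬ (x : ℕ) < 2) :
    ret n g (FreeGroup.of x) = g := by
  simp only [ret, FreeGroup.lift_apply_of, dif_neg hx]

private theorem Jh_comp (φ ψ : FreeGroup (Fin 2) →* FreeGroup (Fin 2)) :
    (Jh h φ).comp (Jh h ψ) = Jh h (φ.comp ψ) := by
  apply FreeGroup.ext_hom
  intro x
  change Jh h φ (Jh h ψ (FreeGroup.of x)) = Jh h (φ.comp ψ) (FreeGroup.of x)
  by_cases hx : (x : ℕ) < 2
  · rw [Jh_of' h ψ hx, Jh_of' h _ hx, Jh_inc]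
    rfl
  · rw [Jh_of h ψ hx, Jh_of h _ hx, Jh_of h _ hx]

private theorem Jh_id : Jh h (MonoidHom.id (FreeGroup (Fin 2))) = MonoidHom.id _ := by
  apply FreeGroup.ext_hom
  intro x
  change Jh h (MonoidHom.id (FreeGroup (Fin 2))) (FreeGroup.of x) = FreeGroup.of x
  by_cases hx : (x : ℕ) < 2
  · rw [Jh_of' h _ hx]
    exact inc_of h _
  · rw [Jh_of h _ hx]

/-- `Aut(F_2) → Aut(F_n)` -/
private def jj : MulAut (FreeGroup (Fin 2)) →* MulAut (FreeGroup (Fin n)) where
  toFun φ := MonoidHom.toMulEquiv (Jh h φ.toMonoidHom) (Jh h φ.symm.toMonoidHom)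
    (by
      rw [Jh_comp]
      have : φ.symm.toMonoidHom.comp φ.toMonoidHom = MonoidHom.id _ := by ext x; simp
      rw [this, Jh_id])
    (by
      rw [Jh_comp]
      have : φ.toMonoidHom.comp φ.symm.toMonoidHom = MonoidHom.id _ := by ext x; simp
      rw [this, Jh_id])
  map_one' := by
    apply MulEquiv.ext
    intro x
    change Jh h (MonoidHom.id _) x = x
    rw [Jh_id]; rfl
  map_mul' φ ψ := by
    apply MulEquiv.ext
    intro x
    change Jh h ((φ * ψ : MulAut (FreeGroup (Fin 2))).toMonoidHom) x =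
      Jh h φ.toMonoidHom (Jh h ψ.toMonoidHom x)
    exact (DFunLike.congr_fun (Jh_comp h φ.toMonoidHom ψ.toMonoidHom) x).symm

private theorem jj_apply (φ : MulAut (FreeGroup (Fin 2))) (x : FreeGroup (Fin n)) :
    jj h φ x = Jh h φ.toMonoidHom x := rfl

private theorem jj_inj : Function.Injective (jj h) := by
  rw [injective_iff_map_eq_one]
  intro φ hφ
  apply MulEquiv.ext
  intro x
  have h1 : jj h φ (inc h x) = inc h x := by rw [hφ]; rfl
  rw [jj_apply, Jh_inc] at h1
  have h2 := congrArg (ret n 1) h1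
  rwa [ret_inc, ret_inc] at h2

private theorem jj_out_inj (h3 : 3 ≤ n) :
    Function.Injective ((QuotientGroup.mk' (Inn (FreeGroup (Fin n)))).comp (jj h)) := by
  rw [injective_iff_map_eq_one]
  intro φ hφ
  have h0 : jj h φ ∈ Inn (FreeGroup (Fin n)) := (QuotientGroup.eq_one_iff _).1 hφ
  obtain ⟨w, hw⟩ := h0
  have hw' : ∀ y : FreeGroup (Fin n), Jh h φ.toMonoidHom y = w * y * w⁻¹ := by
    intro y
    rw [← jj_apply, ← hw]
    rfl
  apply MulEquiv.ext
  intro g
  have hx : ¬ (((⟨2, h3⟩ : Fin n) : ℕ) < 2) := by simp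
  have h1 := congrArg (ret n g) (hw' (inc h g))
  have h2 := congrArg (ret n g) (hw' (FreeGroup.of ⟨2, h3⟩))
  rw [Jh_inc, ret_inc, map_mul, map_mul, ret_inc] at h1
  rw [Jh_of h _ hx, map_mul, map_mul, ret_of g hx] at h2
  exact h1.trans h2.symm

end embed

/-- Let `Γ` be any simplicial graph, finite or infinite.  No finite-index subgroup of a group that
contains a copy of `Aut(F_2)` embeds in the right-angled Artin group of `Γ`.  In particular no
finite-index subgroup of `Aut(F_n)`, `n ≥ 2`, or of `Out(F_n)`, `n ≥ 3`, does. -/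
theorem result {V : Type u} (Γ : SimpleGraph V) :
    (∀ (G : Type v) [Group G],
      (∃ j : MulAut (FreeGroup (Fin 2)) →* G, Function.Injective j) → ¬ VirtuallyEmbeds G Γ) ∧
    (∀ n : ℕ, 2 ≤ n → ¬ VirtuallyEmbeds (MulAut (FreeGroup (Fin n))) Γ) ∧
    (∀ n : ℕ, 3 ≤ n → ¬ VirtuallyEmbeds (OutF n) Γ) := by
  refine ⟨?_, ?_, ?_⟩
  · rintro G _ ⟨j, hj⟩
    exact main Γ G j hj
  · intro n hn
    exact main Γ _ (jj hn) (jj_inj hn)
  · intro n hn
    have h2 : 2 ≤ n := by omega
    exact main Γ _ _ (jj_out_inj h2 hn)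

end Pool.Agent.Results.MP_804d81_al.AutF2Obstruction
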